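import Pool.Agent.Helper66.HK.StOut

/-! Module UNI: uniform heights. -/

set_option autoImplicit false

namespace Pool.Agent.Helper66.HK

open Finset Pool.Agent.Helper69.RK

noncomputable section

theorem st_UNI (h1 : ST_E1) (h2 : ST_E2) (h3 : ST_E3) (h5 : ST_E5) (h6 : ST_E6) : ST_UNI := by
  classical
  intro m hG ε hε
  obtain ⟨η, hη, n0, H⟩ := hG ε hε
  refine ⟨η, hη, n0, ?_⟩
  intro n g hN hng Ω ζ _ μ Z a x hS
  have h2g : (0 : ℝ) < 2 ^ g := by positivity
  set μ' : Ω × Fin (2 ^ g) → ℝ := fun w => μ w.1 / 2 ^ g with hμ'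
  have hnn : ∀ w, 0 ≤ μ' w := fun w => div_nonneg (hS.nn _) h2g.le
  have hne : ∀ w, μ' w ≠ 0 → μ w.1 ≠ 0 := by
    intro w hw h
    apply hw
    rw [hμ']
    simp [h]
  -- push-forward
  have hpush : push Prod.fst μ' = μ := by
    funext ω
    unfold push
    rw [Fintype.sum_prod_type]
    have : ∀ y : Ω, ∑ s : Fin (2 ^ g), (if (y, s).1 = ω then μ' (y, s) else 0) =
        if y = ω then μ y else 0 := by
      intro y
      by_cases hy : y = ω
      · simp only [hy, if_true, hμ', Finset.sum_const, Finset.card_univ, Fintype.card_fin,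
          nsmul_eq_mul]
        push_cast
        field_simp
      · simp [hy]
    rw [Finset.sum_congr rfl fun y _ => this y]
    simp
  have hms : mass μ' = 1 := by
    have := ((h5.1 Ω (Ω × Fin (2 ^ g)) ℕ ℕ μ' Prod.fst (fun _ => 0) (fun _ => 0)) hnn).2.1
    rw [hpush, hS.ms] at this
    exact this.symm
  have hCH : ∀ (α γ : Type) (f : Ω → α) (k : Ω → γ),
      CH μ' (fun w => f w.1) (fun w => k w.1) = CH μ f k := by
    intro α γ f k
    have := ((h5.1 Ω (Ω × Fin (2 ^ g)) α γ μ' Prod.fst f k) hnn).2.2
    rw [hpush] at this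
    exact this.symm
  have hsl : ∀ (α γ : Type) (f : Ω × Fin (2 ^ g) → α) (k : Ω → γ),
      CH μ' f (fun w => (k w.1, w.2)) =
        (∑ s : Fin (2 ^ g), CH μ (fun ω => f (ω, s)) k) / 2 ^ g := by
    intro α γ f k
    rw [h6 Ω (Fin (2 ^ g)) α γ μ' f (fun w => k w.1) hnn, Finset.sum_div]
    refine Finset.sum_congr rfl fun s _ => ?_
    have := h5.2 Ω α γ μ (fun ω => f (ω, s)) k (1 / 2 ^ g) (by positivity) hS.nn
    have e : (fun ω => μ' (ω, s)) = fun ω => 1 / 2 ^ g * μ ω := by
      funext ω
      rw [hμ']
      ring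
    rw [e, this]
    ring
  have htinj : ∀ s s' : Fin (2 ^ g), ht g s = ht g s' → s = s' := by
    intro s s' h
    unfold ht at h
    rw [div_left_inj' h2g.ne'] at h
    exact Fin.ext (by exact_mod_cast h)
  -- the system
  have hHS : HS m n η μ' (fun w => Z w.1) (fun w => a w.1) (fun w => x w.1)
      (fun w => ht g w.2) := by
    refine ⟨hnn, hms, fun w i => hS.ab _ _, fun w i => hS.xb _ _, ?_, ?_, ?_, ?_⟩
    · intro w
      unfold ht
      refine ⟨by positivity, ?_⟩
      rw [div_lt_one h2g]
      exact_mod_cast w.2.2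
    · intro k hk
      unfold MI
      have e1 := (h1 _ _ _ _ μ' (fun w => cel n (x w.1)) (fun w => cel k (a w.1))
        (fun w => (cel k (x w.1), Z w.1)) hnn).2.1
      have e2 := (h1 _ _ _ _ μ' (fun w => cel k (a w.1)) (fun w => cel n (x w.1))
        (fun w => (cel k (x w.1), Z w.1)) hnn).2.1
      have e3 := (h1 _ _ _ ((Fin m → ℤ) × (Fin m → ℤ) × ζ) μ' (fun w => cel k (a w.1))
        (fun w => cel k (a w.1)) (fun w => (cel n (x w.1), (cel k (x w.1), Z w.1))) hnn).1
      have e4 : CH μ' (fun w => (cel n (x w.1), cel k (a w.1))) (fun w => (cel k (x w.1), Z w.1)) ≤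
          CH μ' (fun w => (cel k (a w.1), cel n (x w.1))) (fun w => (cel k (x w.1), Z w.1)) := by
        refine h2.1 _ _ _ _ μ' _ _ _ hnn ?_
        intro w w' _ _ h
        simp only [Prod.mk.injEq] at h ⊢
        exact ⟨h.1.2, h.1.1⟩
      have e5 := hCH _ _ (fun ω => cel k (a ω)) (fun ω => (cel k (x ω), Z ω))
      have e6 := hS.st k hk
      linarith
    · -- heights
      have e1 : CH μ' (fun w => hn n (ht g w.2)) (fun w => w.1) ≤
          CH μ' (fun w => hn n (ht g w.2)) (fun w => ((a w.1, x w.1), Z w.1)) := by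
        refine h2.2.1 _ _ _ _ μ' _ _ _ hnn ?_
        intro w w' _ _ h
        simp only at h
        simp only [h]
      have e2 : CH μ' (fun w => w.2) (fun w => w.1) = g := by
        unfold CH
        have hp1 : ∀ w, pr μ' (fun w => w.1) w = μ w.1 := by
          intro w
          have : pr μ' (fun w => w.1) w = push Prod.fst μ' w.1 := rfl
          rw [this, hpush]
        have hp2 : ∀ w, pr μ' (fun w => (w.2, w.1)) w = μ w.1 / 2 ^ g := by
          intro w
          unfold pr
          rw [Finset.sum_eq_single w]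
          · simp [hμ']
          · intro b _ hb
            rw [if_neg]
            intro h
            simp only [Prod.mk.injEq] at h
            exact hb (Prod.ext h.2 h.1)
          · simp
        have : ∀ w, μ' w * (Real.logb 2 (pr μ' (fun w => w.1) w) -
            Real.logb 2 (pr μ' (fun w => (w.2, w.1)) w)) = μ' w * g := by
          intro w
          rw [hp1, hp2]
          by_cases hw : μ w.1 = 0
          · simp [hμ', hw]
          · rw [Real.logb_div hw h2g.ne', Real.logb_pow, Real.logb_self_eq_one (by norm_num)]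
            ring
        rw [Finset.sum_congr rfl fun w _ => this w, ← Finset.sum_mul]
        have : ∑ w, μ' w = 1 := hms
        rw [this, one_mul]
      have e3 := (h1 _ _ _ _ μ' (fun w => hn n (ht g w.2)) (fun w => w.2) (fun w => w.1) hnn).2.1
      have e4 : CH μ' (fun w => w.2) (fun w => w.1) ≤
          CH μ' (fun w => (hn n (ht g w.2), w.2)) (fun w => w.1) := by
        refine h2.1 _ _ _ _ μ' _ _ _ hnn ?_
        intro w w' _ _ h
        simp only [Prod.mk.injEq] at h
        exact h.1.2
      have e5 : CH μ' (fun w => w.2) (fun w => (hn n (ht g w.2), w.1)) ≤ (g : ℝ) - n := by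
        have := h3.1 _ _ _ μ' (fun w => w.2) (fun w => (hn n (ht g w.2), w.1))
          (fun _ => (2 : ℝ) ^ (g - n)) hnn ?_
        · refine this.trans ?_
          rw [← Finset.sum_mul]
          have h0 : ∑ w, μ' w = 1 := hms
          rw [h0, one_mul, Real.logb_pow, Real.logb_self_eq_one (by norm_num), mul_one,
            Nat.cast_sub hng]
        · intro w _
          have hsub : (((univ : Finset (Ω × Fin (2 ^ g))).filter (fun ω' => μ' ω' ≠ 0 ∧
              (hn n (ht g ω'.2), ω'.1) = (hn n (ht g w.2), w.1))).image (fun w => w.2)).image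
                (fun s : Fin (2 ^ g) => ((s : ℕ) : ℤ)) ⊆
              Finset.Ico (hn n (ht g w.2) * 2 ^ (g - n)) (hn n (ht g w.2) * 2 ^ (g - n) + 2 ^ (g - n)) := by
            intro z hz
            simp only [Finset.mem_image, Finset.mem_filter, Finset.mem_univ, true_and,
              Prod.mk.injEq] at hz
            obtain ⟨s, ⟨w', ⟨-, h4, -⟩, rfl⟩, rfl⟩ := hz
            rw [← h4, Finset.mem_Ico]
            have h5 : (2 : ℝ) ^ n * ht g w'.2 * 2 ^ (g - n) = ((w'.2 : ℕ) : ℝ) := by
              unfold ht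
              have : (2 : ℝ) ^ g = 2 ^ n * 2 ^ (g - n) := by
                rw [← pow_add]
                congr 1
                omega
              rw [this]
              field_simp
            have h6 : (0 : ℝ) < 2 ^ (g - n) := by positivity
            constructor
            · have h7 := Int.floor_le ((2 : ℝ) ^ n * ht g w'.2)
              have h8 : ((hn n (ht g w'.2) : ℤ) : ℝ) * 2 ^ (g - n) ≤ ((w'.2 : ℕ) : ℝ) := by
                rw [← h5]
                exact mul_le_mul_of_nonneg_right h7 h6.le
              exact_mod_cast h8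
            · have h7 := Int.lt_floor_add_one ((2 : ℝ) ^ n * ht g w'.2)
              have h8 : ((w'.2 : ℕ) : ℝ) < ((hn n (ht g w'.2) : ℤ) : ℝ) * 2 ^ (g - n) + 2 ^ (g - n) := by
                rw [← h5]
                have := mul_lt_mul_of_pos_right h7 h6
                rw [add_mul, one_mul] at this
                exact this
              exact_mod_cast h8
          have hc := Finset.card_le_card hsub
          rw [Finset.card_image_of_injective _ (fun s s' h => by
            simp only [Nat.cast_inj] at h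
            exact Fin.ext h), Int.card_Ico, add_sub_cancel_left] at hc
          have hc2 : ((2 : ℤ) ^ (g - n)).toNat = 2 ^ (g - n) := by
            have : ((2 : ℤ) ^ (g - n)) = ((2 ^ (g - n) : ℕ) : ℤ) := by push_cast; rfl
            rw [this, Int.toNat_natCast]
          rw [hc2] at hc
          rw [Subsingleton.elim (fun a b => Classical.propDecidable (a = b))
            (instDecidableEqFin (2 ^ g))]
          exact_mod_cast hc
      have e6 : (1 - η) * n ≤ (n : ℝ) := by
        have : (0 : ℝ) ≤ n := Nat.cast_nonneg n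
        nlinarith
      linarith
    · unfold MI
      have e1 := hCH _ _ (fun ω => (a ω, x ω)) Z
      have e2 : CH μ' (fun w => (a w.1, x w.1)) (fun w => (Z w.1, w.2)) ≤
          CH μ' (fun w => (a w.1, x w.1)) (fun w => (ht g w.2, Z w.1)) := by
        refine h2.2.1 _ _ _ _ μ' _ _ _ hnn ?_
        intro w w' _ _ h
        simp only [Prod.mk.injEq] at h ⊢
        exact ⟨by rw [h.2], h.1⟩
      rw [hsl _ _ (fun w => (a w.1, x w.1)) Z] at e2
      simp only [Finset.sum_const, Finset.card_univ, Fintype.card_fin, nsmul_eq_mul] at e2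
      push_cast at e2
      rw [mul_div_assoc, mul_comm, div_mul_cancel₀ _ h2g.ne'] at e2
      have e3 : 0 ≤ η * n := by positivity
      linarith
  have key := H n hN (Ω × Fin (2 ^ g)) ζ μ' (fun w => Z w.1) (fun w => a w.1) (fun w => x w.1)
    (fun w => ht g w.2) hHS
  have e1 := hCH _ _ (fun ω => cel n (x ω)) Z
  have e2 : CH μ' (fun w => cel n (Yt (ht g w.2) (a w.1) (x w.1))) (fun w => (ht g w.2, Z w.1)) ≤
      CH μ' (fun w => cel n (Yt (ht g w.2) (a w.1) (x w.1))) (fun w => (Z w.1, w.2)) := by
    refine h2.2.1 _ _ _ _ μ' _ _ _ hnn ?_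
    intro w w' _ _ h
    simp only [Prod.mk.injEq] at h ⊢
    exact ⟨h.2, htinj _ _ h.1⟩
  rw [hsl _ _ (fun w => cel n (Yt (ht g w.2) (a w.1) (x w.1))) Z] at e2
  have e3 : ∑ s : Fin (2 ^ g), CH μ (fun ω => cel n (Yt (ht g s) (a ω) (x ω))) Z =
      ∑ t ∈ range (2 ^ g), CH μ (fun ω => cel n (Yt (ht g t) (a ω) (x ω))) Z :=
    Fin.sum_univ_eq_sum_range (fun t => CH μ (fun ω => cel n (Yt (ht g t) (a ω) (x ω))) Z) (2 ^ g)
  simp only at e2
  rw [e3] at e2
  linarith

end

end Pool.Agent.Helper66.HK
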